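import Pool.Agent.H96.PCA.Reduction
import Pool.Agent.H64.PCA.Final

/-!
MP_fe4781_pr, Q1: limiting distributions of exponentially uniformly ergodic PCAs are finitary
factors of finite-valued i.i.d. processes, with coding radius having exponential tails.
-/

namespace Pool.Agent.Results.MP_fe4781_pr.ExponentialCoding

open MeasureTheory Pool.Agent.H96.PCAStmt

theorem result {d : ℕ} (hd : 1 ≤ d) {S A : Type} [Finite S] [Nonempty S] [TopologicalSpace S]
    [DiscreteTopology S] [MeasurableSpace S] [DiscreteMeasurableSpace S] [Finite A]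
    [MeasurableSpace A] [DiscreteMeasurableSpace A] (P : PCA d S A) (p : Measure A)
    [IsProbabilityMeasure p] (μ : Measure (Zd d → S)) [IsProbabilityMeasure μ]
    (hlim : P.IsLimit p μ) (hexp : P.ExpTail p) : FvFfiidExp μ :=
  reduction p hd
    (fun {_ _} _ _ _ _ _ _ _ ν _ h a ha hl hp μ _ hμ => H64.PCA.core hd ν h a ha hl hp μ hμ)
    P μ hlim hexp

end Pool.Agent.Results.MP_fe4781_pr.ExponentialCoding
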